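import Mathlib
import Pool.Agent.W520.D3Deg2
import Pool.Agent.W520.D3Iso

/-!
The stratum `S_(18)` of abelian differentials of genus ten with a single zero contains infinitely
many arithmetic points of degree at least three.
-/

set_option autoImplicit false

namespace Pool.Agent.Results.MP_13c6dd_ag.DegreeThreeInfinite

open Pool.Agent.W520.D3

/-- There are infinitely many pairwise non isomorphic arithmetic points of degree at least three on
the stratum `S_(18)`. -/
theorem result : ∃ f : ℕ → Polynomial ℂ,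
    (∀ n, IsPoint (f n) ∧ IsArithmetic (f n) ∧ DegreeAtLeast (f n) 3) ∧
      ∀ m n, m ≠ n → ¬ IsIso (f m) (f n) := by
  have hne : ∀ k, (ek k : ℂ) ≠ 0 := fun k => by exact_mod_cast (ek_pos k).ne'
  have h6 : ∀ k, (ek k : ℂ) ^ 6 ≠ 1 := by
    intro k h
    have h2 : ek k ^ 6 = 1 := by exact_mod_cast h
    have := pow_lt_one₀ (ek_pos k).le (ek_lt k) (n := 6) (by norm_num)
    linarith
  have hal : ∀ k, IsAlgebraic ℚ (ek k : ℂ) := by
    intro k
    apply IsAlgebraic.of_pow (n := 3) three_pos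
    have h3 : (ek k : ℂ) ^ 3 = ((1 / (2 * (k + 1) ^ 3) : ℚ) : ℂ) := by
      have := ek_cube k
      have h4 : ((ek k ^ 3 : ℝ) : ℂ) = ((1 / (2 * (k + 1 : ℝ) ^ 3) : ℝ) : ℂ) := by rw [this]
      push_cast at h4 ⊢
      exact h4
    rw [h3]
    exact isAlgebraic_algebraMap _
  refine ⟨fun k => gp (ek k), fun k => ⟨⟨gp_natDegree (hne k) (h6 k),
    gp_separable (hne k) (h6 k)⟩, gp_arithmetic (hne k) (h6 k) (hal k), gp_degree k⟩, ?_⟩
  intro m n hmn h
  apply hmn
  have h1 := gp_inj (ek_pos m) (ek_lt m) (ek_pos n) (ek_lt n) h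
  have h2 : ek m ^ 3 = ek n ^ 3 := by rw [h1]
  rw [ek_cube, ek_cube] at h2
  have hm : (0 : ℝ) < (m + 1 : ℝ) := by positivity
  have hn : (0 : ℝ) < (n + 1 : ℝ) := by positivity
  have h3 : (m + 1 : ℝ) ^ 3 = (n + 1 : ℝ) ^ 3 := by
    field_simp at h2
    linarith
  have h4 := (pow_left_inj₀ hm.le hn.le (by norm_num)).1 h3
  have h5 : (m : ℝ) = n := by linarith
  exact_mod_cast h5

end Pool.Agent.Results.MP_13c6dd_ag.DegreeThreeInfinite
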